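import Pool.Agent.MAL.Defs
import Pool.Agent.RU.Core
import Pool.Agent.RU.Ball
import Pool.Agent.PO.Stmts

/-!
# Merlin-Arthur-locally computable records: definitions of the proof

* `lk u k` looks up the entry with key `bl k` in the list `u` (an entry is
  `node (bl k) (node r w)`, with the record `r` and the witness `w`).
* The data of the reporter theory are `D = node D₀ q`, with
  `D₀ = node (node aG aL) (node ah (node (unary j) (unary n₀)))` and `q = node c.enc (unary κ)`.
* Its axioms are given by `Z = node (node (bl N) (unary s)) (node (bl i) (node p (unary B)))`;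
  `p` is `node leaf σ` (totality; `σ` a list of coins) or `node (node _ u) σ` (correctness; `u` a
  list of entries, `σ` a list of lists of coins).
-/

namespace Pool.Agent.MAL

open Pool.Agent.H19 Pool.Agent.H19.T Pool.Agent.RU Pool.Agent.PO

/-! ### Lists -/

/-- The entry number `b` of the list `l`. -/
def nthT (l : T) (b : ℕ) : T := (T.right^[b] l).left

/-- One step of the lookup; the state is `node key result`. -/
def lkStep (h a : T) : T := if h.left = a.left then T.node a.left h.right else a

/-- The data `node r w` of the (last) entry with key `bl k` of the list `u`; a leaf if there is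
none. -/
def lk (u : T) (k : ℕ) : T := (tfold lkStep u (T.node (bl k) T.leaf)).right

/-- The list `u` has an entry with key `bl k`. -/
def HasKey (u : T) (k : ℕ) : Prop := ∃ h ∈ u.toL, h.left = bl k

/-- The records given by the list `u`, up to number `i`. -/
def RL (u : T) (i k : ℕ) : T := if k ≤ i then (lk u k).left else T.leaf

/-- The numbers of the records on which the local check of the record number `i` depends. -/
def keysR (R : ℕ → T) (i : ℕ) : List ℕ :=
  [i, fa (R i), fb (R i), fx (R i), fy (R i), fs (R i), ft (R i), fy (R (fs (R i))),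
    fa (R (fx (R i)))]

/-- The list `u` has entries for all records on which the local check of number `i` depends. -/
def Cov (u : T) (i : ℕ) : Prop := ∀ k ∈ keysR (RL u i) i, k ≤ i → HasKey u k

/-- The tree is the code of a record. -/
def IsRec (x : T) : Prop := ∃ r : Rec, r.enc = x

/-- `y` is a list of records which form an accepting computation of the program with code `W`. -/
def DescL (y : T) (W : T) : Prop :=
  y.len ≠ 0 ∧ ∀ i < y.len, CheckT (nthT y) i ∧ (i + 1 ≠ y.len ∨ FinalT (nthT y) i W)

/-! ### The data -/

def eG (D : T) : T := D.left.left.left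
def eL (D : T) : T := D.left.left.right
def eh (D : T) : T := D.left.right.left
def ej (D : T) : ℕ := D.left.right.right.left.len
def en (D : T) : ℕ := D.left.right.right.right.len

def mkD0 (aG aL ah : T) (j n₀ : ℕ) : T :=
  T.node (T.node aG aL) (T.node ah (T.node (T.unary j) (T.unary n₀)))

def zn (Z : T) : ℕ := bn Z.left.left
def zsz (Z : T) : ℕ := Z.left.right.len
def zi (Z : T) : ℕ := bn Z.right.left
def pl (Z : T) : T := Z.right.right.left
def bud (Z : T) : T := Z.right.right.right

def mkZ (N s i : ℕ) (p : T) (B : ℕ) : T :=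
  T.node (T.node (bl N) (T.unary s)) (T.node (bl i) (T.node p (T.unary B)))

/-- The size parameter. -/
def xs (N s : ℕ) : ℕ := (bl N).size + 2 * s + 10

/-! ### The relation -/

/-- The output of the program for the number of records (with a halting flag). -/
def OL (D Z : T) : T := simulF (T.node (eL D) (T.node (zl (zn Z) (zsz Z)) (bud Z)))

/-- The number of records. -/
def nL (D Z : T) : ℕ := bn (OL D Z).right

def okL (D Z : T) : Prop := OL D Z ≠ T.leaf ∧ nL D Z ≠ 0 ∧ (OL D Z).right.size ≤ (bud Z).len

/-- Arthur accepts the entry `d = node r w` for the record number `k` with coins `ρ`. -/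
def AccE (D Z : T) (k : ℕ) (d : T) (ρ : ℕ) : Prop :=
  IsRec d.left ∧ d.left.size ≤ zsz Z ∧ d.right.size ≤ zsz Z ∧
    (simulF (T.node (eG D)
      (T.node (inp (zn Z) k d.left d.right ρ (zsz Z)) (bud Z)))).right ≠ T.leaf

/-- Totality: `y = node r w` is accepted as record number `i` with all coins in the list. -/
def FTot (D Z y : T) : Prop :=
  okL D Z ∧ (nL D Z ≤ zi Z ∨ ∀ a ∈ (pl Z).right.toL, AccE D Z (zi Z) y (bn a % 2 ^ zsz Z))

/-- All entries of the list `u` up to number `i` are accepted with coins `ρ`. -/
def AllAcc (D Z u : T) (ρ : ℕ) : Prop :=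
  ∀ h ∈ u.toL, bn h.left ≤ zi Z → AccE D Z (bn h.left) h.right ρ

/-- The coins `y` (a list) show that the entries `u` are not accepted with high probability. -/
def Rej (D Z u y : T) : Prop :=
  ∀ row ∈ (pl Z).right.toL, ∃ b < zsz Z + 10,
    ¬ AllAcc D Z u ((bn (nthT y b) + bn (nthT row b)) % 2 ^ zsz Z)

section
variable (μ : Fm) (fP : T → T) (V : T)

/-- Correctness, for the entries `u`. -/
def FCor (D Z u y : T) : Prop :=
  nL D Z ≤ zi Z ∨ ¬ Cov u (zi Z) ∨
    (CheckT (RL u (zi Z)) (zi Z) ∧
      (zi Z + 1 ≠ nL D Z ∨ FinalT (RL u (zi Z)) (zi Z) (TX μ fP V D (zn Z)))) ∨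
    Rej D Z u y

/-- The relation; `X = node D Z`. -/
def FR (X y : T) : Prop :=
  y.size ≤ (bud X.right).len ∧
    (((pl X.right).left = T.leaf ∧ FTot X.left X.right y) ∨
      ((pl X.right).left ≠ T.leaf ∧ FCor μ fP V X.left X.right (pl X.right).left.right y))

end

/-- The condition on the axioms of the reporter theory. -/
def Cond (D Z : T) : Prop :=
  en D ≤ zn Z ∧ xs (zn Z) (zsz Z) ^ ej D ≤ (bud Z).len ∧
    (simulF (T.node (eh D) (T.node (zl (zn Z) (zsz Z)) (bud Z)))).right ≠ T.leaf ∧
    ((pl Z).left = T.leaf ∨ (pl Z).right.len ≤ zsz Z * (zsz Z + 10) + 1)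

end Pool.Agent.MAL
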