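import Pool.Agent.RU.Defs

/-!
# Merlin-Arthur-locally computable descriptions of computations

As in `Pool.Agent.RU.Defs` a computation of a program is described by a sequence of numbered
records. Here the records are not computed: a prover (Merlin) sends the record and a witness, and
a verifier (Arthur), who tosses coins, accepts or rejects the record.
-/

namespace Pool.Agent.MAL

open Pool.Agent.H19 Pool.Agent.RU

/-- The input of Arthur's program for the record number `i`: `n` and `i` in binary, Merlin's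
message (the record `r` and the witness `w`), the result `ρ < 2 ^ s` of `s` coin tosses, in
binary, and `s` in unary. -/
def inp (n i : ℕ) (r w : T) (ρ s : ℕ) : T :=
  T.node (T.node (bl n) (bl i)) (T.node (T.node r w) (T.node (bl ρ) (T.unary s)))

/-- Merlin can make Arthur accept `r` as record number `i` with certainty. -/
def Certain (G : T → T) (n i s : ℕ) (r : Rec) : Prop :=
  r.enc.size ≤ s ∧ ∃ w : T, w.size ≤ s ∧ ∀ ρ < 2 ^ s, G (inp n i r.enc w ρ s) ≠ T.leaf

/-- Merlin can make Arthur accept `r` as record number `i` with probability more than `1 / 2`. -/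
def Likely (G : T → T) (n i s : ℕ) (r : Rec) : Prop :=
  r.enc.size ≤ s ∧ ∃ w : T, w.size ≤ s ∧
    2 ^ s < 2 * {ρ : ℕ | ρ < 2 ^ s ∧ G (inp n i r.enc w ρ s) ≠ T.leaf}.ncard

/-- `ℓ` and `G` describe an accepting computation of the program `W` for `n`, with the bound `s`:
the number `L` of records is given by `ℓ`, Merlin can make Arthur accept some record number `i`
with certainty, for each `i < L`, and every sequence of records that Merlin can make Arthur accept
with probability more than `1 / 2` is an accepting computation of `W`. -/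
def DescribesMA (ℓ G : T → T) (n s L : ℕ) (W : Code) : Prop :=
  ℓ (T.node (bl n) (T.unary s)) = bl L ∧ (∀ i < L, ∃ r : Rec, Certain G n i s r) ∧
    ∀ r : ℕ → Rec, (∀ i < L, Likely G n i s (r i)) → Accepting r L W

/-- For large `n` there is an accepting computation of the program `W n` described by `L n` records
which are Merlin-Arthur-locally computable in time `n ^ o(1)`. -/
def MALocallyComputable (L : ℕ → ℕ) (W : ℕ → Code) : Prop :=
  ∃ (τ : ℕ → ℕ) (ℓ G : T → T) (n₀ : ℕ),
    Constructible τ ∧ Subpolynomial τ ∧ PolyTime ℓ ∧ PolyTime G ∧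
      ∀ n ≥ n₀, DescribesMA ℓ G n (τ n) (L n) (W n)

/-- The two sets of formulas have the same models. -/
def SameModels (Th Th' : Set Fm) : Prop :=
  ∀ (M : Type) (A : Str M), A.Models Th ↔ A.Models Th'

/-- For all `S` and `T₀` in the class, some theory with the models of `T₀`, given by a clocked
program `(c, κ)`, is such that the `S`-proofs of its reflection sentences for `n` are longer than
every polynomial in `n`. -/
def LongProofs : Prop :=
  ∀ (μ : Fm) (_ : IsUniversal μ) (P : Code → ℕ → Fm) (_ : IsFormalisation μ P)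
    (S T₀ : Set Fm) (_ : InClassT S) (_ : InClassT T₀),
    ∃ (c : Code) (κ : ℕ), HaltsWithin c κ ∧ SameModels (theory c κ) T₀ ∧
      ∀ k : ℕ, ∃ n₀ : ℕ, ∀ n ≥ n₀, ∀ π : List Step, IsProof S π (rfn (P c κ) μ n) →
        n ^ k < (encProof π).size

/-- The class `E`: sets of numbers `x` decidable in time polynomial in `x`, that is, in time
exponential in the length of `x`. -/
def InE (A : Set ℕ) : Prop :=
  ∃ f : T → T, PolyTime f ∧ ∀ x : ℕ, x ∈ A ↔ f (T.unary x) ≠ T.leaf

/-- `t(m) = 2 ^ o(m)`, and `s = t(m)` can be decided in time polynomial in `m` and `s`. -/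
def SubexpBound (t : ℕ → ℕ) : Prop :=
  (∃ f : T → T, PolyTime f ∧ ∀ m s : ℕ, f (T.node (T.unary m) (T.unary s)) ≠ T.leaf ↔ s = t m) ∧
    ∀ e : ℕ, ∃ m₀ : ℕ, ∀ m ≥ m₀, t m ^ e ≤ 2 ^ m

/-- The set `A` of numbers is decided by a Merlin-Arthur protocol: on inputs `x` of length `m`,
with `s = t m`, Merlin sends a message of size at most `s`, Arthur tosses `s` coins and works in
time polynomial in `m` and `s`. The protocol has perfect completeness, and its error on numbers not
in `A` is at most `1 / 2`. -/
def InMATime (t : ℕ → ℕ) (A : Set ℕ) : Prop :=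
  ∃ B : T → T, PolyTime B ∧ ∀ x s : ℕ, s = t x.size →
    (x ∈ A → ∃ w : T, w.size ≤ s ∧ ∀ ρ < 2 ^ s,
      B (T.node (bl x) (T.node w (T.node (bl ρ) (T.unary s)))) ≠ T.leaf) ∧
    (x ∉ A → ∀ w : T, w.size ≤ s →
      2 * {ρ : ℕ | ρ < 2 ^ s ∧
        B (T.node (bl x) (T.node w (T.node (bl ρ) (T.unary s)))) ≠ T.leaf}.ncard ≤ 2 ^ s)

/-- No constructions by Merlin-Arthur-locally computable records. -/
def MainA : Prop :=
  ∀ (μ : Fm) (_ : IsUniversal μ) (P : Code → ℕ → Fm) (_ : IsFormalisation μ P)
    (S T₀ : Set Fm) (_ : InClassT S) (_ : InClassT T₀) (V : Code) (_ : SoundChecker S V),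
    ∃ (c : Code) (κ : ℕ), HaltsWithin c κ ∧ SameModels (theory c κ) T₀ ∧
      (¬ ∃ (L : ℕ → ℕ) (k n₀ : ℕ), (∀ n ≥ n₀, L n ≤ n ^ k) ∧
        MALocallyComputable L (fun n => check V (rfn (P c κ) μ n))) ∧
      ((¬ ∃ L : ℕ → ℕ, MALocallyComputable L (fun n => check V (rfn (P c κ) μ n))) ∨
        LongProofs)

/-- The dichotomy: the reflection conjecture holds, or E is not contained in MATIME(2^o(n)). -/
def MainB : Prop :=
  ∀ (μ : Fm) (_ : IsUniversal μ) (P : Code → ℕ → Fm) (_ : IsFormalisation μ P),
    ReflectionConjecture μ P ∨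
      ∃ A : Set ℕ, InE A ∧ ∀ t : ℕ → ℕ, SubexpBound t → ¬ InMATime t A

end Pool.Agent.MAL
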